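import Mathlib

/-!
# Choice of parameters
-/

set_option autoImplicit false

namespace Pool.Agent.QFR

open Real

/-- `256 * (160 κ ν) * 16^ν * (2000 κ ν) * 2 ≤ 2^(10 ν)` -/
theorem params_ineq (κ : ℝ) (hκ : 1 ≤ κ) (ν : ℕ) (hν : 10 * (1 + Real.log κ) ≤ ν) :
    256 * (160 * κ * ν) * 16 ^ ν * (4000 * κ * ν) ≤ (2 : ℝ) ^ (10 * ν) := by
  have hκ0 : 0 < κ := by linarith
  have hl : 0 ≤ Real.log κ := Real.log_nonneg hκ
  have hν10 : (10 : ℝ) ≤ ν := by linarith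
  have hνn : 10 ≤ ν := by exact_mod_cast hν10
  -- κ ≤ exp (ν / 10)
  have h1 : κ ≤ exp ((ν : ℝ) / 10) := by
    rw [← Real.exp_log hκ0]
    apply exp_le_exp.mpr
    linarith
  have h1' : κ ^ 2 ≤ 2 ^ ν := by
    calc κ ^ 2 ≤ (exp ((ν : ℝ) / 10)) ^ 2 := pow_le_pow_left₀ hκ0.le h1 2
      _ = exp ((ν : ℝ) / 5) := by rw [← exp_nat_mul]; congr 1; push_cast; ring
      _ ≤ exp (Real.log 2 * ν) := by
        apply exp_le_exp.mpr
        have := Real.log_two_gt_d9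
        nlinarith
      _ = 2 ^ ν := by
        rw [mul_comm, exp_nat_mul, Real.exp_log (by norm_num)]
  -- ν ^ 2 ≤ 2 ^ ν
  have h2 : ((ν : ℝ)) ^ 2 ≤ 2 ^ ν := by
    have h : ∀ m : ℕ, 4 ≤ m → m ^ 2 ≤ 2 ^ m := by
      intro m hm
      induction m, hm using Nat.le_induction with
      | base => norm_num
      | succ m hm ih =>
        calc (m + 1) ^ 2 ≤ 2 * m ^ 2 := by nlinarith
          _ ≤ 2 * 2 ^ m := by omega
          _ = 2 ^ (m + 1) := by ring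
    exact_mod_cast h ν (by omega)
  -- constant
  have h3 : (256 * 160 * 4000 : ℝ) ≤ 2 ^ (4 * ν) := by
    calc (256 * 160 * 4000 : ℝ) ≤ 2 ^ 40 := by norm_num
      _ ≤ 2 ^ (4 * ν) := pow_le_pow_right₀ (by norm_num) (by omega)
  have h4 : (16 : ℝ) ^ ν = 2 ^ (4 * ν) := by
    rw [show (16 : ℝ) = 2 ^ 4 by norm_num, ← pow_mul]
  calc 256 * (160 * κ * ν) * 16 ^ ν * (4000 * κ * ν)
      = (256 * 160 * 4000) * κ ^ 2 * (ν : ℝ) ^ 2 * 16 ^ ν := by ring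
    _ ≤ 2 ^ (4 * ν) * 2 ^ ν * 2 ^ ν * 2 ^ (4 * ν) := by
        rw [h4]
        gcongr
    _ = (2 : ℝ) ^ (10 * ν) := by
        rw [← pow_add, ← pow_add, ← pow_add]; congr 1; ring

/-- the choice of `j` and `n₁` -/
theorem params (κ : ℝ) (hκ : 1 ≤ κ) (ν : ℕ) (hν : 10 * (1 + Real.log κ) ≤ ν) :
    ∃ j n₁ : ℕ, n₁ + j + 1 = 10 * ν ∧ 1000 * κ * ν ≤ (2 : ℝ) ^ j ∧
      256 * (160 * κ * ν) * 16 ^ ν ≤ (2 : ℝ) ^ n₁ := by
  have hκ0 : 0 < κ := by linarith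
  have hl : 0 ≤ Real.log κ := Real.log_nonneg hκ
  have hν10 : (10 : ℝ) ≤ ν := by linarith
  have hi := params_ineq κ hκ ν hν
  have hex : ∃ j : ℕ, 1000 * κ * ν ≤ (2 : ℝ) ^ j := by
    obtain ⟨j, hj⟩ := pow_unbounded_of_one_lt (1000 * κ * ν) (one_lt_two (α := ℝ))
    exact ⟨j, hj.le⟩
  classical
  obtain ⟨j, hj, hmin⟩ : ∃ j : ℕ, 1000 * κ * ν ≤ (2 : ℝ) ^ j ∧
      ∀ k < j, ¬ 1000 * κ * ν ≤ (2 : ℝ) ^ k :=
    ⟨Nat.find hex, Nat.find_spec hex, fun k hk => Nat.find_min hex hk⟩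
  have hj2 : (2 : ℝ) ^ j ≤ 2000 * κ * ν := by
    rcases j with _ | j
    · have : (10 : ℝ) ≤ κ * ν := by nlinarith
      simp only [pow_zero]
      linarith
    · have := hmin j (by omega)
      push Not at this
      rw [pow_succ]
      linarith
  -- 2 ^ (j+1) * (256 * 160 κ ν * 16^ν) ≤ 2 ^ (10 ν)
  have hpos : 0 < 256 * (160 * κ * ν) * 16 ^ ν := by positivity
  have hone : 1 ≤ 256 * (160 * κ * ν) * 16 ^ ν := by
    have h1 : (1 : ℝ) ≤ 16 ^ ν := one_le_pow₀ (by norm_num)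
    have h2 : (10 : ℝ) ≤ κ * ν := by nlinarith
    nlinarith
  have h5 : (2 : ℝ) ^ (j + 1) * (256 * (160 * κ * ν) * 16 ^ ν) ≤ 2 ^ (10 * ν) := by
    calc (2 : ℝ) ^ (j + 1) * (256 * (160 * κ * ν) * 16 ^ ν)
        ≤ (4000 * κ * ν) * (256 * (160 * κ * ν) * 16 ^ ν) := by
          refine mul_le_mul_of_nonneg_right ?_ hpos.le
          rw [pow_succ]; linarith
      _ = 256 * (160 * κ * ν) * 16 ^ ν * (4000 * κ * ν) := by ring
      _ ≤ _ := hi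
  have h6 : (2 : ℝ) ^ (j + 1) ≤ 2 ^ (10 * ν) := by
    refine le_trans ?_ h5
    exact le_mul_of_one_le_right (by positivity) hone
  have h7 : j + 1 ≤ 10 * ν := (pow_le_pow_iff_right₀ (by norm_num : (1 : ℝ) < 2)).mp h6
  obtain ⟨n₁, hn₁⟩ := Nat.exists_eq_add_of_le h7
  refine ⟨j, n₁, by omega, hj, ?_⟩
  rw [hn₁, pow_add 2 (j + 1) n₁] at h5
  exact le_of_mul_le_mul_left h5 (by positivity)

end Pool.Agent.QFR
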