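import Pool.Agent.W_626a77_h48.Supp

/-!
# Supports of refinements
-/

set_option autoImplicit false

namespace Pool.Agent.QFR

open Finset Real
open scoped Pointwise

variable {G : Type} [AddCommGroup G] [Fintype G]

/-- a value of positive probability of the finer family has positive probability for the coarser -/
theorem Refines.ne_zero {T a : Fam G} (h : Refines T a) (i : T.ι) (x : G) (hx : T.m i x ≠ 0) :
    ∃ j, a.m j x ≠ 0 := by
  classical
  obtain ⟨φ, hφ⟩ := h
  refine ⟨φ i, ?_⟩
  rw [hφ (φ i) x]
  have h3 : 0 < T.m i x := lt_of_le_of_ne (T.nn i x) (Ne.symm hx)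
  refine ne_of_gt ?_
  refine Finset.sum_pos' (fun k _ => ?_) ⟨i, Finset.mem_univ i, ?_⟩
  · split_ifs
    · exact T.nn _ _
    · exact le_rfl
  · rw [if_pos rfl]; exact h3

variable [DecidableEq G]

/-- a conditioning of the uniform law on `A` is supported in `A` -/
theorem suppIn_of_refines {T : Fam G} {A : Finset G} {hA : A.Nonempty}
    (h : Refines T (Fam.unif A hA)) : T.SuppIn (((1 : ℕ) • A : Finset G) : Set G) := by
  intro i x hx
  obtain ⟨j, hj⟩ := h.ne_zero i x hx
  have h4 : (Fam.unif A hA).m j x = unif A x := rfl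
  rw [h4] at hj
  have h6 : x ∈ A := by
    by_contra hxA
    exact hj (by simp [unif, hxA])
  simpa using h6

end Pool.Agent.QFR
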