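import Mathlib

/-!
# The tree lemma (section 2 of the proof of the quasi-optimal Freiman-Ruzsa theorem)

Words are lists of Booleans, `true = S`, `false = F`; the head is the outermost letter.
`E : List Bool → ℝ` satisfies

* `(H)` `E (S w) + E (F w) = 2 E w`,
* `(P)` `E w ≤ E (S w)`,
* `(X)` `E (u S F v) ≤ E (u F S v)`.

`tree_lemma`: for `n ≥ 1` there is a word `w` of length `16 n ^ 2` with `E w ≥ E ∅ - 256 k n`,
`E (S ^ n w) ≤ E ∅ + 264 k n` and `∑ k(v) ≤ 128 k n ^ 2`, the sum over the proper inner subwords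
`v` of `w`, where `k(v) = E (S v) - E v` and `k ≥ k(∅)`.
-/

set_option autoImplicit false

namespace Pool.Agent.W_MP_626a77_h55

/-- Sum of `f` over all words of length `n`. -/
def wsum : ℕ → (List Bool → ℝ) → ℝ
  | 0, f => f []
  | n + 1, f => wsum n (fun w => f (true :: w)) + wsum n (fun w => f (false :: w))

theorem wsum_add (n : ℕ) (f g : List Bool → ℝ) :
    wsum n (fun w => f w + g w) = wsum n f + wsum n g := by
  induction n generalizing f g with
  | zero => rfl
  | succ n ih =>
    simp only [wsum]
    rw [ih (fun w => f (true :: w)) (fun w => g (true :: w)),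
      ih (fun w => f (false :: w)) (fun w => g (false :: w))]
    ring

theorem wsum_mul (n : ℕ) (c : ℝ) (f : List Bool → ℝ) :
    wsum n (fun w => c * f w) = c * wsum n f := by
  induction n generalizing f with
  | zero => rfl
  | succ n ih =>
    simp only [wsum]
    rw [ih (fun w => f (true :: w)), ih (fun w => f (false :: w))]
    ring

theorem wsum_const (n : ℕ) (c : ℝ) : wsum n (fun _ => c) = 2 ^ n * c := by
  induction n with
  | zero => simp [wsum]
  | succ n ih =>
    simp only [wsum]
    rw [ih]
    ring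

theorem wsum_mono {n : ℕ} {f g : List Bool → ℝ} (h : ∀ w : List Bool, w.length = n → f w ≤ g w) :
    wsum n f ≤ wsum n g := by
  induction n generalizing f g with
  | zero => exact h [] rfl
  | succ n ih =>
    simp only [wsum]
    exact add_le_add (ih fun w hw => h _ (by simp [hw])) (ih fun w hw => h _ (by simp [hw]))

theorem exists_lt_of_wsum {n : ℕ} {f : List Bool → ℝ} {c : ℝ} (h : wsum n f < 2 ^ n * c) :
    ∃ w : List Bool, w.length = n ∧ f w < c := by
  by_contra hc
  push Not at hc
  have := wsum_mono (n := n) (f := fun _ => c) (g := f) hc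
  rw [wsum_const] at this
  linarith

theorem wsum_succ (n : ℕ) (f : List Bool → ℝ) :
    wsum (n + 1) f = wsum n (fun w => f (true :: w) + f (false :: w)) := by
  rw [wsum_add]
  rfl

theorem wsum_le_of_step {f : List Bool → ℝ} {c : ℝ}
    (h : ∀ w, f (true :: w) + f (false :: w) ≤ 2 * (f w + c)) (n : ℕ) :
    wsum n f ≤ 2 ^ n * (f [] + n * c) := by
  induction n with
  | zero => simp [wsum]
  | succ n ih =>
    rw [wsum_succ]
    calc wsum n (fun w => f (true :: w) + f (false :: w))
        ≤ wsum n (fun w => 2 * (f w + c)) := wsum_mono fun w _ => h w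
      _ = 2 * (wsum n f + 2 ^ n * c) := by
          rw [wsum_mul, wsum_add, wsum_const]
      _ ≤ 2 * (2 ^ n * (f [] + n * c) + 2 ^ n * c) := by linarith
      _ = 2 ^ (n + 1) * (f [] + ((n + 1 : ℕ) : ℝ) * c) := by push_cast; ring

/-! ## Insertion of a letter `S` -/

/-- Sum of `ψ` over the `w.length + 1` words obtained by inserting a letter `true` in `w`. -/
def insSum : (List Bool → ℝ) → List Bool → ℝ
  | ψ, [] => ψ [true]
  | ψ, a :: w => ψ (true :: a :: w) + insSum (fun v => ψ (a :: v)) w

theorem wsum_insSum (L : ℕ) (ψ : List Bool → ℝ) :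
    wsum L (insSum ψ) = wsum (L + 1) (fun w => (w.count true : ℝ) * ψ w) := by
  induction L generalizing ψ with
  | zero => simp [wsum, insSum]
  | succ L ih =>
    have h1 : ∀ a : Bool, wsum L (fun w => insSum ψ (a :: w)) =
        wsum L (fun w => ψ (true :: a :: w)) +
          wsum (L + 1) (fun w => (w.count true : ℝ) * ψ (a :: w)) := by
      intro a
      have : (fun w => insSum ψ (a :: w)) =
          fun w => ψ (true :: a :: w) + insSum (fun v => ψ (a :: v)) w := by
        funext w
        simp [insSum]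
      rw [this, wsum_add, ih]
    have h2 : wsum (L + 1) (insSum ψ) =
        wsum L (fun w => insSum ψ (true :: w)) + wsum L (fun w => insSum ψ (false :: w)) := rfl
    have h3 : wsum (L + 1 + 1) (fun w => (w.count true : ℝ) * ψ w) =
        wsum (L + 1) (fun w => ((true :: w).count true : ℝ) * ψ (true :: w)) +
          wsum (L + 1) (fun w => ((false :: w).count true : ℝ) * ψ (false :: w)) := rfl
    have h4 : wsum (L + 1) (fun w => ((true :: w).count true : ℝ) * ψ (true :: w)) =
        wsum (L + 1) (fun w => (w.count true : ℝ) * ψ (true :: w)) +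
          wsum (L + 1) (fun w => ψ (true :: w)) := by
      rw [← wsum_add]
      congr 1
      funext w
      rw [List.count_cons_self]
      push_cast
      ring
    have h5 : wsum (L + 1) (fun w => ((false :: w).count true : ℝ) * ψ (false :: w)) =
        wsum (L + 1) (fun w => (w.count true : ℝ) * ψ (false :: w)) := by
      congr 1
    have h6 : wsum (L + 1) (fun w => ψ (true :: w)) =
        wsum L (fun w => ψ (true :: true :: w)) + wsum L (fun w => ψ (true :: false :: w)) := rfl
    rw [h2, h1, h1, h3, h4, h5, h6]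
    ring

/-- `2 · #S(w) - |w|`. -/
def bal (w : List Bool) : ℝ := 2 * (w.count true : ℝ) - w.length

theorem wsum_bal_sq (M : ℕ) : wsum M (fun w => bal w ^ 2) ≤ 2 ^ M * M := by
  have h := wsum_le_of_step (f := fun w => bal w ^ 2) (c := 1) (fun w => by
    have h1 : bal (true :: w) = bal w + 1 := by
      simp only [bal, List.count_cons_self, List.length_cons]
      push_cast
      ring
    have h2 : bal (false :: w) = bal w - 1 := by
      simp only [bal, List.length_cons]
      rw [List.count_cons_of_ne (by decide)]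
      push_cast
      ring
    rw [h1, h2]
    nlinarith) M
  refine h.trans (le_of_eq ?_)
  simp [bal]

theorem wsum_insSum_le {L : ℕ} {ψ : List Bool → ℝ} (h0 : ∀ w, 0 ≤ ψ w) (h1 : ∀ w, ψ w ≤ 1) :
    wsum L (fun w => insSum ψ w / (w.length + 1)) / 2 ^ L ≤
      wsum (L + 1) ψ / 2 ^ (L + 1) + 1 / √(L + 1) := by
  have hM : (0 : ℝ) < L + 1 := by positivity
  have hs : 0 < √((L : ℝ) + 1) := Real.sqrt_pos.2 hM
  have hss : √((L : ℝ) + 1) * √((L : ℝ) + 1) = L + 1 := Real.mul_self_sqrt hM.le
  have e1 : wsum L (fun w => insSum ψ w / (w.length + 1)) =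
      (1 / ((L : ℝ) + 1)) * wsum L (insSum ψ) := by
    rw [← wsum_mul]
    apply le_antisymm
    · apply wsum_mono
      intro w hw
      rw [hw]
      exact le_of_eq (by ring)
    · apply wsum_mono
      intro w hw
      rw [hw]
      exact le_of_eq (by ring)
  have key : ∀ w : List Bool, w.length = L + 1 → (w.count true : ℝ) * ψ w ≤
      (((L : ℝ) + 1) / 2) * ψ w + ((1 / (4 * √((L : ℝ) + 1))) * bal w ^ 2 + √((L : ℝ) + 1) / 4) := by
    intro w hw
    have hc : (w.count true : ℝ) = (((L : ℝ) + 1) + bal w) / 2 := by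
      simp only [bal, hw]
      push_cast
      ring
    rw [hc]
    have h2 : bal w / 2 * ψ w ≤ |bal w| / 2 := by
      have ha := abs_nonneg (bal w)
      have hb := le_abs_self (bal w)
      have := h0 w
      have := h1 w
      nlinarith
    have h3 : |bal w| / 2 ≤ (1 / (4 * √((L : ℝ) + 1))) * bal w ^ 2 + √((L : ℝ) + 1) / 4 := by
      have : 0 ≤ (1 / (4 * √((L : ℝ) + 1))) * (|bal w| - √((L : ℝ) + 1)) ^ 2 := by positivity
      have h4 : (1 / (4 * √((L : ℝ) + 1))) * (|bal w| - √((L : ℝ) + 1)) ^ 2 =
          (1 / (4 * √((L : ℝ) + 1))) * bal w ^ 2 + √((L : ℝ) + 1) / 4 - |bal w| / 2 := by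
        have h5 : |bal w| ^ 2 = bal w ^ 2 := sq_abs _
        have h6 : √((L : ℝ) + 1) ≠ 0 := hs.ne'
        field_simp
        nlinarith
      linarith
    linarith
  have e2 : wsum (L + 1) (fun w => (w.count true : ℝ) * ψ w) ≤
      (((L : ℝ) + 1) / 2) * wsum (L + 1) ψ + 2 ^ (L + 1) * (√((L : ℝ) + 1) / 2) := by
    refine (wsum_mono key).trans ?_
    rw [wsum_add, wsum_mul, wsum_add, wsum_mul, wsum_const]
    have h7 := wsum_bal_sq (L + 1)
    have h8 : (1 / (4 * √((L : ℝ) + 1))) * wsum (L + 1) (fun w => bal w ^ 2) ≤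
        (1 / (4 * √((L : ℝ) + 1))) * (2 ^ (L + 1) * ((L + 1 : ℕ) : ℝ)) :=
      mul_le_mul_of_nonneg_left h7 (by positivity)
    have h9 : (1 / (4 * √((L : ℝ) + 1))) * (2 ^ (L + 1) * ((L + 1 : ℕ) : ℝ)) =
        2 ^ (L + 1) * (√((L : ℝ) + 1) / 4) := by
      push_cast
      field_simp
      nlinarith
    rw [h9] at h8
    nlinarith
  rw [e1, wsum_insSum]
  have h10 : (1 / ((L : ℝ) + 1)) * wsum (L + 1) (fun w => (w.count true : ℝ) * ψ w) / 2 ^ L ≤
      (1 / ((L : ℝ) + 1)) * ((((L : ℝ) + 1) / 2) * wsum (L + 1) ψ +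
        2 ^ (L + 1) * (√((L : ℝ) + 1) / 2)) / 2 ^ L := by
    gcongr
  refine h10.trans (le_of_eq ?_)
  have h11 : 1 / √((L : ℝ) + 1) = √((L : ℝ) + 1) / (L + 1) := by
    rw [div_eq_div_iff hs.ne' hM.ne']
    linarith
  rw [h11]
  field_simp
  ring

/-- Iterated averages over insertions. -/
noncomputable def insIter : ℕ → (List Bool → ℝ) → List Bool → ℝ
  | 0, ψ => ψ
  | n + 1, ψ => fun w => insSum (insIter n ψ) w / (w.length + 1)

theorem insSum_nonneg {ψ : List Bool → ℝ} (h0 : ∀ w, 0 ≤ ψ w) (w : List Bool) :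
    0 ≤ insSum ψ w := by
  induction w generalizing ψ with
  | nil => simpa [insSum] using h0 _
  | cons a w ih =>
    simp only [insSum]
    exact add_nonneg (h0 _) (ih fun v => h0 _)

theorem insSum_le {ψ : List Bool → ℝ} (h1 : ∀ w, ψ w ≤ 1) (w : List Bool) :
    insSum ψ w ≤ w.length + 1 := by
  induction w generalizing ψ with
  | nil => simpa [insSum] using h1 _
  | cons a w ih =>
    simp only [insSum, List.length_cons]
    push_cast
    have := h1 (true :: a :: w)
    have := ih (ψ := fun v => ψ (a :: v)) fun v => h1 _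
    linarith

theorem insIter_bds {ψ : List Bool → ℝ} (h0 : ∀ w, 0 ≤ ψ w) (h1 : ∀ w, ψ w ≤ 1) (n : ℕ) :
    (∀ w, 0 ≤ insIter n ψ w) ∧ ∀ w, insIter n ψ w ≤ 1 := by
  induction n with
  | zero => exact ⟨h0, h1⟩
  | succ n ih =>
    constructor
    · intro w
      exact div_nonneg (insSum_nonneg ih.1 w) (by positivity)
    · intro w
      simp only [insIter]
      rw [div_le_one (by positivity)]
      exact insSum_le ih.2 w

theorem wsum_insIter_le {ψ : List Bool → ℝ} (h0 : ∀ w, 0 ≤ ψ w) (h1 : ∀ w, ψ w ≤ 1)
    (n N M : ℕ) (hM : 0 < M) (hN : M ≤ N) :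
    wsum N (insIter n ψ) / 2 ^ N ≤ wsum (N + n) ψ / 2 ^ (N + n) + n / √M := by
  induction n generalizing N with
  | zero => simp [insIter]
  | succ n ih =>
    have hb := insIter_bds h0 h1 n
    have h2 := wsum_insSum_le (L := N) hb.1 hb.2
    have h3 := ih (N + 1) (by omega)
    have h4 : (1 : ℝ) / √((N : ℝ) + 1) ≤ 1 / √M := by
      apply one_div_le_one_div_of_le
      · exact Real.sqrt_pos.2 (by exact_mod_cast hM)
      · apply Real.sqrt_le_sqrt
        have : (M : ℝ) ≤ N := by exact_mod_cast hN
        linarith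
    have e : N + 1 + n = N + (n + 1) := by ring
    rw [e] at h3
    have h5 : (((n + 1 : ℕ) : ℝ)) / √M = n / √M + 1 / √M := by
      push_cast
      ring
    rw [h5]
    simp only [insIter]
    linarith

/-! ## The process -/

section

variable (E : List Bool → ℝ)

/-- `k(w) = E (S w) - E w`. -/
def kk (w : List Bool) : ℝ := E (true :: w) - E w

/-- Sum of `k(v)` over the proper inner subwords `v` of `w`. -/
def innerSum : List Bool → ℝ
  | [] => 0
  | _ :: w => innerSum w + (E (true :: w) - E w)

variable (k : ℝ)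

/-- Some inner subword `v` of `w` has `k(v) > 16 k`. -/
def bad : List Bool → Prop
  | [] => 16 * k < kk E []
  | a :: w => bad w ∨ 16 * k < kk E (a :: w)

open Classical in
/-- The stopped supermartingale. -/
noncomputable def pot (w : List Bool) : ℝ := if bad E k w then 16 * k else kk E w

open Classical in
/-- The stopped martingale. -/
noncomputable def stp : List Bool → ℝ
  | [] => 0
  | a :: w => if bad E k w then stp w else stp w + (if a then kk E w else - kk E w)

variable {E k}

theorem kk_nonneg (hP : ∀ w, E w ≤ E (true :: w)) (w : List Bool) : 0 ≤ kk E w :=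
  sub_nonneg.2 (hP w)

theorem kk_super (hH : ∀ w, E (true :: w) + E (false :: w) = 2 * E w)
    (hX : ∀ u v, E (u ++ true :: false :: v) ≤ E (u ++ false :: true :: v)) (w : List Bool) :
    kk E (true :: w) + kk E (false :: w) ≤ 2 * kk E w := by
  have h1 := hH (true :: w)
  have h2 := hX [] w
  have h3 := hH w
  simp only [List.nil_append] at h2
  simp only [kk]
  linarith

theorem pot_super (hk : 0 < k) (hP : ∀ w, E w ≤ E (true :: w))
    (hH : ∀ w, E (true :: w) + E (false :: w) = 2 * E w)
    (hX : ∀ u v, E (u ++ true :: false :: v) ≤ E (u ++ false :: true :: v)) (w : List Bool) :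
    pot E k (true :: w) + pot E k (false :: w) ≤ 2 * (pot E k w + 0) := by
  classical
  by_cases hb : bad E k w
  · have h1 : bad E k (true :: w) := Or.inl hb
    have h2 : bad E k (false :: w) := Or.inl hb
    simp only [pot, hb, h1, h2, if_true]
    linarith
  · have h3 : ∀ a : Bool, pot E k (a :: w) ≤ kk E (a :: w) := by
      intro a
      by_cases hc : 16 * k < kk E (a :: w)
      · have h4 : bad E k (a :: w) := Or.inr hc
        simp only [pot, h4, if_true]
        exact hc.le
      · have h4 : ¬ bad E k (a :: w) := by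
          rintro (h | h)
          · exact hb h
          · exact hc h
        simp only [pot, h4, if_false]
        exact le_rfl
    have h5 := kk_super hH hX w
    have h6 := h3 true
    have h7 := h3 false
    have h8 : pot E k w = kk E w := by
      unfold pot
      rw [if_neg hb]
    rw [h8]
    linarith

theorem pot_nonneg (hk : 0 < k) (hP : ∀ w, E w ≤ E (true :: w)) (w : List Bool) :
    0 ≤ pot E k w := by
  classical
  unfold pot
  split_ifs
  · linarith
  · exact kk_nonneg hP w

theorem not_bad_of_pot (w : List Bool) (h : pot E k w < 16 * k) : ¬ bad E k w := by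
  classical
  intro hb
  simp only [pot, hb, if_true] at h
  exact lt_irrefl _ h

theorem kk_le_of_not_bad (w : List Bool) (h : ¬ bad E k w) : kk E w ≤ 16 * k := by
  cases w with
  | nil => exact not_lt.1 h
  | cons a w => exact not_lt.1 fun hc => h (Or.inr hc)

theorem stp_eq (hH : ∀ w, E (true :: w) + E (false :: w) = 2 * E w) (w : List Bool)
    (h : ¬ bad E k w) : stp E k w = E w - E [] := by
  classical
  induction w with
  | nil => simp [stp]
  | cons a w ih =>
    have h1 : ¬ bad E k w := fun hb => h (Or.inl hb)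
    have h2 := ih h1
    have h3 := hH w
    simp only [stp, h1, if_false]
    rw [h2]
    cases a with
    | true => simp only [if_true, kk]; ring
    | false => simp only [kk, Bool.false_eq_true, if_false]; linarith

theorem stp_step (hk : 0 < k) (hP : ∀ w, E w ≤ E (true :: w)) (w : List Bool) :
    stp E k (true :: w) ^ 2 + stp E k (false :: w) ^ 2 ≤
      2 * (stp E k w ^ 2 + (16 * k) ^ 2) := by
  classical
  by_cases hb : bad E k w
  · simp only [stp, hb, if_true]
    nlinarith [sq_nonneg (16 * k)]
  · have h1 := kk_le_of_not_bad w hb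
    have h2 := kk_nonneg hP w
    simp only [stp, hb, if_false, if_true, Bool.false_eq_true]
    nlinarith

theorem wsum_kk_le (hk1 : kk E [] ≤ k) (hH : ∀ w, E (true :: w) + E (false :: w) = 2 * E w)
    (hX : ∀ u v, E (u ++ true :: false :: v) ≤ E (u ++ false :: true :: v)) (n : ℕ) :
    wsum n (kk E) ≤ 2 ^ n * k := by
  have h := wsum_le_of_step (f := kk E) (c := 0) (fun w => by
    have := kk_super hH hX w
    linarith) n
  refine h.trans ?_
  have : (0 : ℝ) < 2 ^ n := by positivity
  simp only [mul_zero, add_zero]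
  exact mul_le_mul_of_nonneg_left hk1 this.le

theorem innerSum_nonneg (hP : ∀ w, E w ≤ E (true :: w)) (w : List Bool) : 0 ≤ innerSum E w := by
  induction w with
  | nil => exact le_rfl
  | cons a w ih =>
    simp only [innerSum]
    have := hP w
    linarith

theorem wsum_innerSum_le (hk1 : kk E [] ≤ k)
    (hH : ∀ w, E (true :: w) + E (false :: w) = 2 * E w)
    (hX : ∀ u v, E (u ++ true :: false :: v) ≤ E (u ++ false :: true :: v)) (n : ℕ) :
    wsum n (innerSum E) ≤ 2 ^ n * (n * k) := by
  induction n with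
  | zero => simp [wsum, innerSum]
  | succ n ih =>
    have h1 : wsum (n + 1) (innerSum E) = 2 * wsum n (innerSum E) + 2 * wsum n (kk E) := by
      rw [wsum_succ]
      have : (fun w => innerSum E (true :: w) + innerSum E (false :: w)) =
          fun w => 2 * innerSum E w + 2 * kk E w := by
        funext w
        simp only [innerSum, kk]
        ring
      rw [this, wsum_add, wsum_mul, wsum_mul]
    have h2 := wsum_kk_le hk1 hH hX n
    rw [h1]
    calc 2 * wsum n (innerSum E) + 2 * wsum n (kk E)
        ≤ 2 * (2 ^ n * (n * k)) + 2 * (2 ^ n * k) := by linarith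
      _ = 2 ^ (n + 1) * (((n + 1 : ℕ) : ℝ) * k) := by push_cast; ring

/-- One insertion. -/
theorem exists_ins (hX : ∀ u v, E (u ++ true :: false :: v) ≤ E (u ++ false :: true :: v))
    (φ : List Bool → ℝ) (w : List Bool) (h : insSum φ w < w.length + 1) :
    ∃ v : List Bool, φ v < 1 ∧ v.length = w.length + 1 ∧
      ∀ u, E (u ++ true :: w) ≤ E (u ++ v) := by
  induction w generalizing φ with
  | nil => exact ⟨[true], by simpa [insSum] using h, rfl, fun u => le_rfl⟩
  | cons a w ih =>
    by_cases h1 : φ (true :: a :: w) < 1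
    · exact ⟨true :: a :: w, h1, by simp, fun u => le_rfl⟩
    · have h2 : insSum (fun v => φ (a :: v)) w < w.length + 1 := by
        simp only [insSum, List.length_cons] at h
        push_cast at h
        linarith [not_lt.1 h1]
      obtain ⟨v, hv1, hv2, hv3⟩ := ih _ h2
      refine ⟨a :: v, hv1, by simp [hv2], fun u => ?_⟩
      have h3 : E (u ++ true :: a :: w) ≤ E (u ++ a :: true :: w) := by
        cases a with
        | true => exact le_rfl
        | false => exact hX u w
      have h4 := hv3 (u ++ [a])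
      simp only [List.append_assoc, List.singleton_append] at h4
      exact h3.trans h4

/-- Iterated insertions. -/
theorem exists_insIter (hX : ∀ u v, E (u ++ true :: false :: v) ≤ E (u ++ false :: true :: v))
    (ψ : List Bool → ℝ) (n : ℕ) (w : List Bool) (h : insIter n ψ w < 1) :
    ∃ v : List Bool, ψ v < 1 ∧ v.length = w.length + n ∧
      ∀ u, E (u ++ (List.replicate n true ++ w)) ≤ E (u ++ v) := by
  induction n generalizing w with
  | zero => exact ⟨w, h, rfl, fun u => by simp⟩
  | succ n ih =>
    simp only [insIter] at h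
    rw [div_lt_one (by positivity)] at h
    obtain ⟨v, hv1, hv2, hv3⟩ := exists_ins hX _ w h
    obtain ⟨v', h1, h2, h3⟩ := ih v hv1
    refine ⟨v', h1, by rw [h2, hv2]; ring, fun u => ?_⟩
    have h4 := hv3 (u ++ List.replicate n true)
    have h5 := h3 u
    have e1 : u ++ (List.replicate (n + 1) true ++ w) =
        u ++ List.replicate n true ++ true :: w := by
      rw [List.replicate_succ', List.append_assoc, List.append_assoc]
      simp
    rw [e1]
    refine h4.trans ?_
    rw [List.append_assoc]
    exact h5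

/-- **The tree lemma.** -/
theorem tree_lemma (hH : ∀ w, E (true :: w) + E (false :: w) = 2 * E w)
    (hP : ∀ w, E w ≤ E (true :: w))
    (hX : ∀ u v, E (u ++ true :: false :: v) ≤ E (u ++ false :: true :: v))
    (hk : 0 < k) (hk1 : E [true] - E [] ≤ k) (n : ℕ) (hn : 1 ≤ n) :
    ∃ w : List Bool, w.length = 16 * n ^ 2 ∧ E [] - 256 * k * n ≤ E w ∧
      E (List.replicate n true ++ w) ≤ E [] + 264 * k * n ∧
      innerSum E w ≤ 128 * k * n ^ 2 := by
  classical
  have hn' : (1 : ℝ) ≤ n := by exact_mod_cast hn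
  set N : ℕ := 16 * n ^ 2 with hN
  have hNr : (N : ℝ) = 16 * n ^ 2 := by rw [hN]; push_cast; ring
  have hNpos : 0 < N := by rw [hN]; positivity
  -- the four quantities
  set f1 : List Bool → ℝ := fun w => (1 / (16 * k)) * pot E k w with hf1
  set f2 : List Bool → ℝ := fun w => (1 / (256 * k * n) ^ 2) * stp E k w ^ 2 with hf2
  set f3 : List Bool → ℝ := fun w => (1 / (128 * k * n ^ 2)) * innerSum E w with hf3
  set ψ : List Bool → ℝ := fun w =>
    min 1 ((1 / (16 * k)) * pot E k w + (1 / (264 * k * n) ^ 2) * stp E k w ^ 2) with hψ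
  have hpot0 : ∀ w, 0 ≤ pot E k w := pot_nonneg hk hP
  have hψ0 : ∀ w, 0 ≤ ψ w := by
    intro w
    apply le_min zero_le_one
    have := hpot0 w
    positivity
  have hψ1 : ∀ w, ψ w ≤ 1 := fun w => min_le_left _ _
  -- averages
  have hpot : ∀ m : ℕ, wsum m (pot E k) ≤ 2 ^ m * k := by
    intro m
    have h := wsum_le_of_step (f := pot E k) (c := 0) (pot_super hk hP hH hX) m
    refine h.trans ?_
    have h2 : pot E k [] ≤ k := by
      unfold pot
      split_ifs with hb
      · have : 16 * k < kk E [] := hb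
        have h3 : kk E [] ≤ k := hk1
        linarith
      · exact hk1
    have h3 : (0 : ℝ) < 2 ^ m := by positivity
    simp only [mul_zero, add_zero]
    exact mul_le_mul_of_nonneg_left h2 h3.le
  have hstp : ∀ m : ℕ, wsum m (fun w => stp E k w ^ 2) ≤ 2 ^ m * (m * (16 * k) ^ 2) := by
    intro m
    have h := wsum_le_of_step (f := fun w => stp E k w ^ 2) (c := (16 * k) ^ 2)
      (stp_step hk hP) m
    refine h.trans (le_of_eq ?_)
    simp [stp]
  have a1 : wsum N f1 ≤ 2 ^ N * (1 / 16) := by
    rw [hf1, wsum_mul]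
    calc 1 / (16 * k) * wsum N (pot E k) ≤ 1 / (16 * k) * (2 ^ N * k) :=
          mul_le_mul_of_nonneg_left (hpot N) (by positivity)
      _ = 2 ^ N * (1 / 16) := by field_simp
  have a2 : wsum N f2 ≤ 2 ^ N * (1 / 16) := by
    rw [hf2, wsum_mul]
    calc 1 / (256 * k * n) ^ 2 * wsum N (fun w => stp E k w ^ 2)
        ≤ 1 / (256 * k * n) ^ 2 * (2 ^ N * (N * (16 * k) ^ 2)) :=
          mul_le_mul_of_nonneg_left (hstp N) (by positivity)
      _ = 2 ^ N * (1 / 16) := by
          rw [hNr]
          field_simp
          ring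
  have a3 : wsum N f3 ≤ 2 ^ N * (1 / 8) := by
    rw [hf3, wsum_mul]
    calc 1 / (128 * k * n ^ 2) * wsum N (innerSum E)
        ≤ 1 / (128 * k * n ^ 2) * (2 ^ N * (N * k)) :=
          mul_le_mul_of_nonneg_left (wsum_innerSum_le hk1 hH hX N) (by positivity)
      _ = 2 ^ N * (1 / 8) := by
          rw [hNr]
          field_simp
          ring
  have a4 : wsum (N + n) ψ ≤ 2 ^ (N + n) * (1 / 8) := by
    have h1 : wsum (N + n) ψ ≤ wsum (N + n) (fun w =>
        (1 / (16 * k)) * pot E k w + (1 / (264 * k * n) ^ 2) * stp E k w ^ 2) :=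
      wsum_mono fun w _ => min_le_right _ _
    refine h1.trans ?_
    rw [wsum_add, wsum_mul, wsum_mul]
    have h2 : 1 / (16 * k) * wsum (N + n) (pot E k) ≤ 2 ^ (N + n) * (1 / 16) := by
      calc 1 / (16 * k) * wsum (N + n) (pot E k) ≤ 1 / (16 * k) * (2 ^ (N + n) * k) :=
            mul_le_mul_of_nonneg_left (hpot _) (by positivity)
        _ = 2 ^ (N + n) * (1 / 16) := by field_simp
    have h3 : 1 / (264 * k * n) ^ 2 * wsum (N + n) (fun w => stp E k w ^ 2) ≤
        2 ^ (N + n) * (1 / 16) := by
      have h4 : ((N + n : ℕ) : ℝ) ≤ 17 * n ^ 2 := by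
        push_cast
        rw [hNr]
        nlinarith
      calc 1 / (264 * k * n) ^ 2 * wsum (N + n) (fun w => stp E k w ^ 2)
          ≤ 1 / (264 * k * n) ^ 2 * (2 ^ (N + n) * (((N + n : ℕ) : ℝ) * (16 * k) ^ 2)) :=
            mul_le_mul_of_nonneg_left (hstp _) (by positivity)
        _ ≤ 1 / (264 * k * n) ^ 2 * (2 ^ (N + n) * ((17 * n ^ 2) * (16 * k) ^ 2)) := by
            gcongr
        _ = 2 ^ (N + n) * (17 * 256 / 264 ^ 2) := by
            field_simp
            ring
        _ ≤ 2 ^ (N + n) * (1 / 16) := by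
            apply mul_le_mul_of_nonneg_left _ (by positivity)
            norm_num
    linarith
  have a5 : wsum N (insIter n ψ) ≤ 2 ^ N * (3 / 8) := by
    have h1 := wsum_insIter_le hψ0 hψ1 n N N hNpos le_rfl
    have h2 : (n : ℝ) / √(N : ℝ) = 1 / 4 := by
      have : √(N : ℝ) = 4 * n := by
        rw [hNr, show (16 : ℝ) * n ^ 2 = (4 * n) ^ 2 by ring]
        exact Real.sqrt_sq (by positivity)
      rw [this]
      field_simp
    have h3 : wsum (N + n) ψ / 2 ^ (N + n) ≤ 1 / 8 := by
      rw [div_le_iff₀ (by positivity)]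
      linarith
    rw [h2] at h1
    have h4 : wsum N (insIter n ψ) / 2 ^ N ≤ 3 / 8 := by linarith
    rw [div_le_iff₀ (by positivity)] at h4
    linarith
  -- a good word
  have hex : ∃ w : List Bool, w.length = N ∧ f1 w + f2 w + (f3 w + insIter n ψ w) < 1 := by
    apply exists_lt_of_wsum
    rw [wsum_add, wsum_add, wsum_add]
    have : (0 : ℝ) < 2 ^ N := by positivity
    nlinarith
  obtain ⟨w, hw, hlt⟩ := hex
  have p1 : 0 ≤ f1 w := by
    have := hpot0 w
    simp only [hf1]
    positivity
  have p2 : 0 ≤ f2 w := by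
    simp only [hf2]
    positivity
  have p3 : 0 ≤ f3 w := by
    have := innerSum_nonneg hP w
    simp only [hf3]
    positivity
  have p4 : 0 ≤ insIter n ψ w := (insIter_bds hψ0 hψ1 n).1 w
  have nb : ∀ v : List Bool, (1 / (16 * k)) * pot E k v < 1 → ¬ bad E k v := by
    intro v hv
    apply not_bad_of_pot
    rw [one_div_mul_eq_div, div_lt_one (by positivity)] at hv
    exact hv
  have nbw : ¬ bad E k w := nb w (by simp only [hf1] at p1 hlt; linarith)
  refine ⟨w, hw, ?_, ?_, ?_⟩
  · have h1 : f2 w < 1 := by linarith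
    simp only [hf2] at h1
    rw [one_div_mul_eq_div, div_lt_one (by positivity), stp_eq hH w nbw] at h1
    have h2 := abs_lt_of_sq_lt_sq h1 (by positivity)
    have h3 := (abs_lt.1 h2).1
    linarith
  · have h1 : insIter n ψ w < 1 := by linarith
    obtain ⟨v, hv1, hv2, hv3⟩ := exists_insIter hX ψ n w h1
    have h2 := hv3 []
    simp only [List.nil_append] at h2
    have h3 : (1 / (16 * k)) * pot E k v + (1 / (264 * k * n) ^ 2) * stp E k v ^ 2 < 1 := by
      by_contra hc
      push Not at hc
      have : ψ v = 1 := min_eq_left hc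
      linarith
    have h4 : 0 ≤ (1 / (16 * k)) * pot E k v := by
      have := hpot0 v
      positivity
    have h5 : 0 ≤ (1 / (264 * k * n) ^ 2) * stp E k v ^ 2 := by positivity
    have nbv : ¬ bad E k v := nb v (by linarith)
    have h6 : (1 / (264 * k * n) ^ 2) * stp E k v ^ 2 < 1 := by linarith
    rw [one_div_mul_eq_div, div_lt_one (by positivity), stp_eq hH v nbv] at h6
    have h7 := abs_lt_of_sq_lt_sq h6 (by positivity)
    have h8 := (abs_lt.1 h7).2
    linarith
  · have h1 : f3 w < 1 := by linarith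
    simp only [hf3] at h1
    rw [one_div_mul_eq_div, div_lt_one (by positivity)] at h1
    linarith

end

end Pool.Agent.W_MP_626a77_h55
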