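import Pool.Agent.W_626a77_h48.FamB
import Pool.Agent.W_626a77_h48.FamX
import Pool.Agent.W_626a77_h48.WordS

/-!
# Regularisation of a random variable by minimisation

`Refines T a` says that `T` is a conditioning of `a`.  Among all `T` refining `a` we minimise
`Φ(T) = H(T+T') - H(T) + (H(a) - H(T)) / n` up to `2^{-n}`.  Testing the minimality on
`(T₀ | T₀ + ... + T_m)` gives polynomial growth of the sums of copies of `T`.
-/

set_option autoImplicit false

namespace Pool.Agent.QFR

open Finset Real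

variable {G : Type} [AddCommGroup G] [Fintype G]

/-- the sum of `i + 1` copies -/
noncomputable def Fam.U (a : Fam G) : ℕ → Fam G
  | 0 => a
  | i + 1 => (a.U i).add a

theorem Iso.rfl' (a : Fam G) : Iso a a := Iso.refl a

/-- adding the same family to `T` and to the family `a` refined by `T` -/
theorem Refines.add_sub_le {T a : Fam G} (h : Refines T a) (b : Fam G) :
    (b.add a).H - a.H ≤ (b.add T).H - T.H := by
  have h1 := (Refines.fib (Refines.refl b) h).H_le
  have h2 := H_fib_add_H_add b a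
  have h3 := H_fib_add_H_add b T
  linarith

theorem iso_U_add (a : Fam G) (i j : ℕ) : Iso ((a.U i).add (a.U j)) (a.U (i + j + 1)) := by
  induction j with
  | zero => exact Iso.refl _
  | succ j ih =>
    change Iso ((a.U i).add ((a.U j).add a)) ((a.U (i + j + 1)).add a)
    exact ((iso_add_assoc _ _ _).symm).trans (Iso.add ih (Iso.refl a))

theorem iso_S_U (a : Fam G) (n : ℕ) : Iso (a.S n) (a.U (2 ^ n - 1)) := by
  induction n with
  | zero => exact Iso.refl _
  | succ n ih =>
    change Iso ((a.S n).add (a.S n)) _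
    have h1 := (Iso.add ih ih).trans (iso_U_add a (2 ^ n - 1) (2 ^ n - 1))
    have h2 : 2 ^ n - 1 + (2 ^ n - 1) + 1 = 2 ^ (n + 1) - 1 := by
      have := Nat.one_le_two_pow (n := n)
      rw [pow_succ]; omega
    rwa [h2] at h1

/-- increments -/
noncomputable def Fam.D (a : Fam G) (i : ℕ) : ℝ := (a.U (i + 1)).H - (a.U i).H

theorem D_nonneg (a : Fam G) (i : ℕ) : 0 ≤ a.D i := by
  unfold Fam.D
  have := H_le_add_left (a.U i) a
  change 0 ≤ ((a.U i).add a).H - _
  linarith

theorem D_anti (a : Fam G) (i : ℕ) : a.D (i + 1) ≤ a.D i := by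
  unfold Fam.D
  -- `H(a + U_i + a) + H(U_i) ≤ H(a + U_i) + H(U_i + a)`
  have h1 := submod a (a.U i) a
  have h2 : (a.add (a.U i)).H = (a.U (i + 1)).H := (iso_add_comm a (a.U i)).H_eq
  have h3 : ((a.add (a.U i)).add a).H = (a.U (i + 1 + 1)).H :=
    (Iso.add (iso_add_comm a (a.U i)) (Iso.refl a)).H_eq
  have h4 : ((a.U i).add a).H = (a.U (i + 1)).H := rfl
  rw [h2, h3, h4] at h1
  linarith

theorem D_antitone (a : Fam G) : Antitone a.D := antitone_nat_of_succ_le (D_anti a)

/-- the key computation: entropy of the test family -/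
theorem test_fam (T : Fam G) (i : ℕ) :
    (T.fib (T.U i)).H = T.H - T.D i ∧
    ((T.fib (T.U i)).add (T.fib (T.U i))).H ≤
      (T.add T).H - (T.D (2 * i + 1) + T.D (2 * i + 2)) := by
  have e1 : (T.add (T.U i)).H = (T.U (i + 1)).H := (iso_add_comm T (T.U i)).H_eq
  constructor
  · have h1 := H_fib_add_H_add T (T.U i)
    unfold Fam.D
    linarith
  · have h1 := (exchange T (T.U i) T (T.U i)).H_le
    have h2 := H_fib_add_H_add (T.add T) ((T.U i).add (T.U i))
    have h3 : ((T.U i).add (T.U i)).H = (T.U (2 * i + 1)).H := by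
      have := (iso_U_add T i i).H_eq
      rwa [show i + i + 1 = 2 * i + 1 by ring] at this
    have h4 : ((T.add T).add ((T.U i).add (T.U i))).H = (T.U (2 * i + 2 + 1)).H := by
      have g1 : Iso ((T.add T).add ((T.U i).add (T.U i))) (T.U (1 + (i + i + 1) + 1)) :=
        (Iso.add (Iso.refl _) (iso_U_add T i i)).trans (iso_U_add T 1 (i + i + 1))
      have := g1.H_eq
      rwa [show 1 + (i + i + 1) + 1 = 2 * i + 2 + 1 by ring] at this
    unfold Fam.D
    rw [h3, h4] at h2
    rw [show 2 * i + 1 + 1 = 2 * i + 2 by ring]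
    linarith

/-- EXISTENCE OF AN ALMOST MINIMISER -/
theorem exists_almost_min (a : Fam G) {l ε : ℝ} (hl : 0 ≤ l) (hε : 0 < ε) :
    ∃ T : Fam G, Refines T a ∧
      (T.add T).H - T.H + l * (a.H - T.H) ≤ (a.add a).H - a.H + ε ∧
      ∀ T' : Fam G, Refines T' a →
        (T.add T).H - T.H + l * (a.H - T.H) ≤ (T'.add T').H - T'.H + l * (a.H - T'.H) + ε := by
  set s : Set ℝ := {r | ∃ T : Fam G, Refines T a ∧ (T.add T).H - T.H + l * (a.H - T.H) = r}
    with hs
  have hne : s.Nonempty := ⟨_, a, Refines.refl a, rfl⟩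
  have hbd : BddBelow s := by
    refine ⟨0, ?_⟩
    rintro r ⟨T, hT, rfl⟩
    have h1 := H_le_add_left T T
    have h2 := hT.H_le
    have h3 : 0 ≤ l * (a.H - T.H) := mul_nonneg hl (by linarith)
    linarith
  obtain ⟨r, ⟨T, hT, hr⟩, hlt⟩ := exists_lt_of_csInf_lt hne (lt_add_of_pos_right (sInf s) hε)
  have key : ∀ T' : Fam G, Refines T' a →
        (T.add T).H - T.H + l * (a.H - T.H) ≤ (T'.add T').H - T'.H + l * (a.H - T'.H) + ε := by
    intro T' hT'
    have := csInf_le hbd ⟨T', hT', rfl⟩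
    linarith
  refine ⟨T, hT, ?_, key⟩
  have := key a (Refines.refl a)
  simpa using this

/-- the increments of the almost minimiser -/
theorem D_rec {a T : Fam G} {l ε : ℝ} (hT : Refines T a)
    (h : ∀ T' : Fam G, Refines T' a →
        (T.add T).H - T.H + l * (a.H - T.H) ≤ (T'.add T').H - T'.H + l * (a.H - T'.H) + ε)
    (i : ℕ) : 2 * T.D (2 * i + 2) ≤ (1 + l) * T.D i + ε := by
  obtain ⟨h1, h2⟩ := test_fam T i
  have h3 := h (T.fib (T.U i)) ((refines_fib_left _ _).trans hT)
  have h4 := D_anti T (2 * i + 1)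
  rw [show 2 * i + 1 + 1 = 2 * i + 2 by ring] at h4
  rw [h1] at h3
  have h5 : l * (a.H - (T.H - T.D i)) = l * (a.H - T.H) + l * T.D i := by ring
  rw [h5] at h3
  linarith

theorem D_geom {T : Fam G} {l ε : ℝ} (hl : 0 ≤ l) (hl1 : l ≤ 1) (hε : 0 ≤ ε)
    (h : ∀ i : ℕ, 2 * T.D (2 * i + 2) ≤ (1 + l) * T.D i + ε) (j : ℕ) :
    T.D (2 ^ (j + 1) - 2) ≤ ((1 + l) / 2) ^ j * T.D 0 + (j : ℝ) * ε := by
  induction j with
  | zero => simp
  | succ j ih =>
    have h1 := h (2 ^ (j + 1) - 2)
    have h2 : 2 * (2 ^ (j + 1) - 2) + 2 = 2 ^ (j + 1 + 1) - 2 := by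
      have : 2 ≤ 2 ^ (j + 1) := by
        calc 2 = 2 ^ 1 := rfl
          _ ≤ 2 ^ (j + 1) := Nat.pow_le_pow_right (by norm_num) (by omega)
      rw [pow_succ 2 (j + 1)]; omega
    rw [h2] at h1
    have h3 : (1 + l) / 2 * T.D (2 ^ (j + 1) - 2)
        ≤ (1 + l) / 2 * (((1 + l) / 2) ^ j * T.D 0 + (j : ℝ) * ε) :=
      mul_le_mul_of_nonneg_left ih (by linarith)
    have h4 : (1 + l) / 2 * ((j : ℝ) * ε) ≤ 1 * ((j : ℝ) * ε) :=
      mul_le_mul_of_nonneg_right (by linarith) (by positivity)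
    have h5 : (1 + l) / 2 * (((1 + l) / 2) ^ j * T.D 0 + (j : ℝ) * ε) =
        ((1 + l) / 2) ^ (j + 1) * T.D 0 + (1 + l) / 2 * ((j : ℝ) * ε) := by ring
    push_cast
    linarith

/-- sum of increments over a dyadic block -/
theorem H_S_succ_sub_le (T : Fam G) (j : ℕ) :
    (T.S (j + 1)).H - (T.S j).H ≤ 2 ^ j * T.D (2 ^ j - 1) := by
  have key : ∀ k i : ℕ, (T.U (i + k)).H - (T.U i).H ≤ k * T.D i := by
    intro k
    induction k with
    | zero => intro i; simp
    | succ k ih =>
      intro i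
      have h1 := ih i
      have h2 : T.D (i + k) ≤ T.D i := D_antitone T (by omega)
      have h3 : T.D (i + k) = (T.U (i + (k + 1))).H - (T.U (i + k)).H := rfl
      push_cast
      linarith
  have h1 := key (2 ^ j) (2 ^ j - 1)
  have h2 : 2 ^ j - 1 + 2 ^ j = 2 ^ (j + 1) - 1 := by
    have := Nat.one_le_two_pow (n := j)
    rw [pow_succ]; omega
  rw [h2, ← (iso_S_U T (j + 1)).H_eq, ← (iso_S_U T j).H_eq] at h1
  exact_mod_cast h1

/-- MULTI-SCALE REGULARISATION -/
theorem exists_reg_min (a : Fam G) {κ : ℝ} (hκ : (a.add a).H - a.H ≤ κ) (hκ1 : 1 ≤ κ)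
    (n : ℕ) (hn : 1 ≤ n) :
    ∃ T : Fam G, Refines T a ∧
      a.H - 2 * κ * n ≤ T.H ∧
      (T.S n).H - T.H ≤ 16 * κ * n ∧
      ∀ b : Fam G, (b.add a).H ≤ (b.add T).H + 2 * κ * n := by
  have hn0 : (0 : ℝ) < n := by exact_mod_cast hn
  set l : ℝ := 1 / n with hl
  have hl0 : 0 < l := by positivity
  have hl1 : l ≤ 1 := by
    rw [hl, div_le_one hn0]; exact_mod_cast hn
  set ε : ℝ := (1 / 4) ^ n with hε
  have hε0 : 0 < ε := by positivity
  have hε1 : ε ≤ 1 := pow_le_one₀ (by norm_num) (by norm_num)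
  obtain ⟨T, hT, h1, h2⟩ := exists_almost_min a hl0.le hε0
  have hrec := D_rec hT h2
  have hgeom := D_geom hl0.le hl1 hε0.le hrec
  have hTa := hT.H_le
  have hTT := H_le_add_left T T
  have hlH : l * (a.H - T.H) ≤ 2 * κ := by
    have : (a.add a).H - a.H + ε ≤ 2 * κ := by linarith
    linarith
  have hD0 : T.D 0 ≤ 2 * κ := by
    have e : T.D 0 = (T.add T).H - T.H := rfl
    have : 0 ≤ l * (a.H - T.H) := mul_nonneg hl0.le (by linarith)
    rw [e]
    linarith
  have hD0' := D_nonneg T 0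
  have hcost : a.H - T.H ≤ 2 * κ * n := by
    have : (a.H - T.H) = n * (l * (a.H - T.H)) := by
      rw [hl]; field_simp
    rw [this]
    calc (n : ℝ) * (l * (a.H - T.H)) ≤ n * (2 * κ) := mul_le_mul_of_nonneg_left hlH hn0.le
      _ = 2 * κ * n := by ring
  refine ⟨T, hT, by linarith, ?_, fun b => ?_⟩
  · -- growth
    have hexp : ∀ j : ℕ, j ≤ n → (1 + l) ^ j ≤ exp 1 := by
      intro j hj
      calc (1 + l) ^ j ≤ (1 + l) ^ n := pow_le_pow_right₀ (by linarith) hj
        _ ≤ (exp l) ^ n := by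
          refine pow_le_pow_left₀ (by linarith) ?_ n
          linarith [add_one_le_exp l]
        _ = exp 1 := by
          rw [← exp_nat_mul, hl]
          congr 1
          field_simp
    have hstep : ∀ j : ℕ, j < n → (T.S (j + 1)).H - (T.S j).H ≤ 2 * exp 1 * (2 * κ) + 1 := by
      intro j hj
      rcases j with _ | j
      · have e : (T.S (0 + 1)).H - (T.S 0).H = T.D 0 := rfl
        rw [e]
        have : 2 * κ ≤ 2 * exp 1 * (2 * κ) := by
          have := add_one_le_exp (1 : ℝ)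
          nlinarith
        linarith
      · have g1 := H_S_succ_sub_le T (j + 1)
        have g2 : T.D (2 ^ (j + 1) - 1) ≤ T.D (2 ^ (j + 1) - 2) := D_antitone T (by omega)
        have g3 := hgeom j
        have g4 : (2 : ℝ) ^ (j + 1) * T.D (2 ^ (j + 1) - 1) ≤
            2 ^ (j + 1) * (((1 + l) / 2) ^ j * T.D 0 + (j : ℝ) * ε) :=
          mul_le_mul_of_nonneg_left (g2.trans g3) (by positivity)
        have g5 : (2 : ℝ) ^ (j + 1) * (((1 + l) / 2) ^ j * T.D 0 + (j : ℝ) * ε) =
            2 * (1 + l) ^ j * T.D 0 + 2 ^ (j + 1) * (j : ℝ) * ε := by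
          rw [div_pow, pow_succ]
          field_simp
        have g6 : 2 * (1 + l) ^ j * T.D 0 ≤ 2 * exp 1 * (2 * κ) := by
          refine mul_le_mul ?_ hD0 hD0' (by positivity)
          exact mul_le_mul_of_nonneg_left (hexp j (by omega)) (by norm_num)
        have g7 : (2 : ℝ) ^ (j + 1) * (j : ℝ) * ε ≤ 1 := by
          have q1 : (j : ℝ) ≤ 2 ^ n := by
            calc (j : ℝ) ≤ ((2 ^ j : ℕ) : ℝ) := by exact_mod_cast (Nat.lt_two_pow_self).le
              _ = 2 ^ j := by push_cast; rfl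
              _ ≤ 2 ^ n := pow_le_pow_right₀ (by norm_num) (by omega)
          have q2 : (2 : ℝ) ^ (j + 1) ≤ 2 ^ n := pow_le_pow_right₀ (by norm_num) (by omega)
          calc (2 : ℝ) ^ (j + 1) * (j : ℝ) * ε ≤ 2 ^ n * 2 ^ n * ε :=
                mul_le_mul_of_nonneg_right (mul_le_mul q2 q1 (by positivity) (by positivity))
                  hε0.le
            _ = 1 := by
                rw [hε, ← mul_pow, ← mul_pow]; norm_num
        linarith
    have htot : ∀ j : ℕ, j ≤ n → (T.S j).H - T.H ≤ j * (2 * exp 1 * (2 * κ) + 1) := by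
      intro j
      induction j with
      | zero => intro _; simp [Fam.S]
      | succ j ih =>
        intro hj
        have := ih (by omega)
        have := hstep j (by omega)
        push_cast
        linarith
    have h3 := htot n le_rfl
    have h4 : 2 * exp 1 * (2 * κ) + 1 ≤ 16 * κ := by
      have := exp_one_lt_d9
      nlinarith
    calc (T.S n).H - T.H ≤ n * (2 * exp 1 * (2 * κ) + 1) := h3
      _ ≤ n * (16 * κ) := mul_le_mul_of_nonneg_left h4 hn0.le
      _ = 16 * κ * n := by ring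
  · have := hT.add_sub_le b
    linarith

end Pool.Agent.QFR
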